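import Pool.Agent.Y192.FN.Defs

/-!
From punctured discs to entire curves and to the multiplicative group (helper73, job FN6 of
helper192; adapted from `Pool.Agent.Y496.KC.Exp` by helper496 and `Pool.Agent.Y961.KZ.Exp` by
helper961).
-/

set_option autoImplicit false

namespace Pool.Agent.Y73.FN

open MvPolynomial Metric Filter Topology
open Pool.Agent.Y192.FN

/-- `1 / (a + 2 π i k)` -/
noncomputable def zk (a : ℂ) (k : ℕ) : ℂ := (a + k * (2 * Real.pi * Complex.I))⁻¹

theorem zk_tendsto (a : ℂ) : Tendsto (zk a) atTop (𝓝 0) := by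
  unfold zk
  apply tendsto_inv₀_cobounded.comp
  rw [← tendsto_norm_atTop_iff_cobounded]
  have h1 : Tendsto (fun k : ℕ => (k : ℝ) * (2 * Real.pi) - ‖a‖) atTop atTop := by
    apply tendsto_atTop_add_const_right
    exact tendsto_natCast_atTop_atTop.atTop_mul_const (by positivity)
  refine tendsto_atTop_mono (fun k => ?_) h1
  have h2 : ‖(k : ℂ) * (2 * Real.pi * Complex.I)‖ = (k : ℝ) * (2 * Real.pi) := by
    simp [abs_of_pos Real.pi_pos]
  have h3 := norm_sub_le (a + k * (2 * Real.pi * Complex.I)) a
  rw [add_sub_cancel_left, h2] at h3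
  linarith

theorem zk_ev_ne (a : ℂ) : ∀ᶠ k : ℕ in atTop, zk a k ≠ 0 := by
  have h : Tendsto (fun k : ℕ => (k : ℝ) * (2 * Real.pi) - ‖a‖) atTop atTop := by
    apply tendsto_atTop_add_const_right
    exact tendsto_natCast_atTop_atTop.atTop_mul_const (by positivity)
  filter_upwards [h.eventually_gt_atTop 0] with k hk
  unfold zk
  apply inv_ne_zero
  intro h0
  have h2 : ‖(k : ℂ) * (2 * Real.pi * Complex.I)‖ = (k : ℝ) * (2 * Real.pi) := by
    simp [abs_of_pos Real.pi_pos]
  have h3 := norm_sub_le (a + k * (2 * Real.pi * Complex.I)) a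
  rw [add_sub_cancel_left, h2, h0, norm_zero, zero_add] at h3
  linarith

theorem exp_zk (a : ℂ) (k : ℕ) : Complex.exp (zk a k)⁻¹ = Complex.exp a := by
  unfold zk
  rw [inv_inv, Complex.exp_add, Complex.exp_nat_mul_two_pi_mul_I, mul_one]

theorem t_nexp : St_nexp := by
  intro n r X m _ _
  constructor
  · intro hP u v hu hv hne hs
    have hexp : DifferentiableOn ℂ (fun z : ℂ => Complex.exp z⁻¹) (ball 0 1 \ {0}) := by
      intro z hz
      exact ((differentiableAt_inv hz.2).cexp).differentiableWithinAt
    have hD : NDisc X m (fun z => u (Complex.exp z⁻¹)) (fun z => v (Complex.exp z⁻¹)) :=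
      { diffu := hu.comp_differentiableOn hexp
        diffv := hv.comp_differentiableOn hexp
        ne := fun z _ => hne _
        sol := fun z _ => hs _ }
    obtain ⟨ρ, hρ, u', v', hu', _, h0, hE⟩ := hP _ _ hD
    have hmem : (0 : ℂ) ∈ ball (0 : ℂ) ρ := mem_ball_self hρ
    have hcu' : ContinuousAt u' 0 :=
      (hu'.continuousOn).continuousAt (isOpen_ball.mem_nhds hmem)
    -- the values are proportional to the value of the extension at the origin
    have key : ∀ y : ℂ, y ≠ 0 → ∀ i j, u y i * u' 0 j = u y j * u' 0 i := by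
      intro y hy i j
      set a := Complex.log y with ha
      have hz := zk_tendsto a
      have hz1 : ∀ᶠ k in atTop, zk a k ∈ ball (0 : ℂ) ρ := hz.eventually (ball_mem_nhds _ hρ)
      have hul : ∀ i', Tendsto (fun k => u' (zk a k) i') atTop (𝓝 (u' 0 i')) := fun i' =>
        ((continuous_apply i').continuousAt.tendsto.comp hcu'.tendsto).comp hz
      have hev : ∀ᶠ k in atTop, u y i * u' (zk a k) j = u y j * u' (zk a k) i := by
        filter_upwards [hz1, zk_ev_ne a] with k h1 h3
        obtain ⟨s, _, h4, _⟩ := hE (zk a k) ⟨h1, h3⟩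
        have h7 : Complex.exp a = y := Complex.exp_log hy
        dsimp only at h4
        rw [exp_zk, h7] at h4
        rw [h4 i, h4 j]
        ring
      exact tendsto_nhds_unique_of_eventuallyEq (tendsto_const_nhds.mul (hul j))
        (tendsto_const_nhds.mul (hul i)) hev
    have hcu : Continuous u := hu.continuous
    have key' : ∀ (y : ℂ) i j, u y i * u' 0 j = u y j * u' 0 i := by
      intro y i j
      have hui : ∀ i, Continuous (fun y => u y i) := fun i => (continuous_apply i).comp hcu
      have := Continuous.ext_on (dense_compl_singleton (0 : ℂ)) ((hui i).mul_const (u' 0 j))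
        ((hui j).mul_const (u' 0 i)) (fun y hy => key y hy i j)
      exact congrFun this y
    obtain ⟨l, hl⟩ : ∃ l, u' 0 l ≠ 0 := by
      by_contra hc
      push Not at hc
      exact h0 0 hmem (funext hc)
    intro z z' i j
    have h1 : ∀ (y : ℂ) i, u y i = u y l / u' 0 l * u' 0 i := by
      intro y i
      have := key' y i l
      field_simp
      rw [this]
    rw [h1 z i, h1 z' j, h1 z j, h1 z' i]
    ring
  · intro hP p s hG
    obtain ⟨y, y', hy, hy', i, j, hij⟩ := hG.nonconst
    apply hij
    have h := hP (fun z i => (p i).eval (Complex.exp z)) (fun z j => (s j).eval (Complex.exp z))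
      (by
        rw [differentiable_pi]
        intro i
        exact (p i).differentiable.comp Complex.differentiable_exp)
      (by
        rw [differentiable_pi]
        intro j
        exact (s j).differentiable.comp Complex.differentiable_exp)
      (by
        intro z h
        obtain ⟨i, hi⟩ := hG.ne _ (Complex.exp_ne_zero z)
        exact hi (congrFun h i))
      (fun z => hG.sol _ (Complex.exp_ne_zero z)) (Complex.log y) (Complex.log y') i j
    rw [Complex.exp_log hy, Complex.exp_log hy'] at h
    exact h

end Pool.Agent.Y73.FN
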